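import Pool.Agent.Lib.MP_d41ace_co.Gap2

/-!
Sizes of minimal PLD-maximal graphs: for `n ≥ 32` no size strictly between `2 (n - 1)` and
`9 (n - 1) / 4` is realised.
-/

set_option autoImplicit false

namespace Pool.Agent.Results.MP_d41ace_co.LowerGap

open MPd41ace

/-- For `n ≥ 32` a minimal PLD-maximal graph of order `n` whose size is not `2 (n - 1)` has at least
`9 (n - 1) / 4` edges. -/
theorem result (n m : ℕ) (hn : 32 ≤ n) (h1 : 2 * (n - 1) < m) (h2 : 4 * m < 9 * (n - 1)) :
    ¬ ∃ G : SimpleGraph (Fin n), IsMinPLD G n ∧ G.edgeSet.ncard = m :=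
  not_realised hn h1 h2

end Pool.Agent.Results.MP_d41ace_co.LowerGap
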