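import Pool.Agent.Lib.MP_d41ace_co.Win55f

/-!
Sizes of minimal PLD-maximal graphs: all pairs `(n, m)` with `n ≥ 370` and
`m ≤ n ^ 2 / 4 - 12 n`, and all pairs with `n ≥ 2400` and `m ≤ n (n - 1) / 4`.
-/

set_option autoImplicit false

namespace Pool.Agent.Results.MP_d41ace_co.Spectrum

open MPd41ace

/-- Let `n ≥ 370` and `m ≤ n ^ 2 / 4 - 12 n`, or `n ≥ 2400` and `m ≤ n (n - 1) / 4`. There is a
minimal PLD-maximal graph of order `n` and size `m` if and only if `m = 2 (n - 1)` or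
`m ≥ 9 (n - 1) / 4`. -/
theorem result (n m : ℕ) (hn : 370 ≤ n)
    (hm : 4 * m + 48 * n ≤ n ^ 2 ∨ (2400 ≤ n ∧ 4 * m ≤ n * (n - 1))) :
    (∃ G : SimpleGraph (Fin n), IsMinPLD G n ∧ G.edgeSet.ncard = m) ↔
      m = 2 * (n - 1) ∨ 9 * (n - 1) ≤ 4 * m :=
  spectrum_half hn hm

end Pool.Agent.Results.MP_d41ace_co.Spectrum
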